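import Pool.Agent.H62.HIL.Tg
import Pool.Agent.H91.SFD.Int

set_option autoImplicit false

namespace Pool.Agent.H91.SFH

open MvPolynomial SC Pool.Agent.H27.LV Pool.Agent.H92.SF Pool.Agent.H3.SF
open Pool.Agent.H62.HIL (T_DC3)
open Pool.Agent.H91.SFD

section

variable {k F LL : Type} [Field k] [Field F] [Algebra k F] [Field LL] [Algebra k LL]

theorem coe_aeval {u : Fin 3 → F} {n : ℕ} (w : Fin n → Bb k u) (p : MvPolynomial (Fin n) k) :
    ((aeval w p : Bb k u) : F) = aeval (fun i => (w i : F)) p := by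
  have h : (Bb k u).val.comp (aeval w) = aeval (fun i => (w i : F)) := by
    apply MvPolynomial.algHom_ext
    intro i
    simp
  exact congrArg (fun f : MvPolynomial (Fin n) k →ₐ[k] F => f p) h

theorem map_ae {A B : Type} [CommRing A] [Algebra k A] [CommRing B] [Algebra k B] (π : A →ₐ[k] B)
    {n : ℕ} (w : Fin n → A) (p : MvPolynomial (Fin n) k) :
    π (aeval w p) = aeval (fun i => π (w i)) p := by
  have h : π.comp (aeval w) = aeval (fun i => π (w i)) := by
    apply MvPolynomial.algHom_ext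
    intro i
    simp
  exact congrArg (fun f : MvPolynomial (Fin n) k →ₐ[k] B => f p) h

/-- integrality of the third coordinate -/
theorem itg_third {e : ℕ} {N : MvPolynomial (Fin 3) k} (hN : N.IsHomogeneous e) {α : Fin 3 → k}
    (hα : α 2 = 1) (h0 : eval α N ≠ 0) (y : Fin 3 → LL) (hy : aeval y N = 0) :
    Itg k ![y 0 - algebraMap k LL (α 0) * y 2, y 1 - algebraMap k LL (α 1) * y 2] (y 2) := by
  set v : Fin 2 → LL := ![y 0 - algebraMap k LL (α 0) * y 2, y 1 - algebraMap k LL (α 1) * y 2]
    with hv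
  let x : Fin 3 → MvPolynomial (Fin 2) k := ![X 0, X 1, 0]
  have h1 := wd_subst (R := MvPolynomial (Fin 2) k) hN x α
  set Q : Polynomial (MvPolynomial (Fin 2) k) := aeval (fun i => Polynomial.C (x i) +
    Polynomial.C (algebraMap k (MvPolynomial (Fin 2) k) (α i)) * Polynomial.X) N with hQ
  refine ⟨Polynomial.C (C (eval α N)⁻¹) * Q, ?_, ?_⟩
  · refine Polynomial.monic_of_natDegree_le_of_coeff_eq_one e
      ((Polynomial.natDegree_C_mul_le _ _).trans h1.1) ?_
    rw [Polynomial.coeff_C_mul, h1.2, MvPolynomial.algebraMap_eq, ← C_mul, inv_mul_cancel₀ h0, C_1]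
  · rw [Polynomial.eval₂_mul]
    have h2 : Polynomial.eval₂ ((aeval v : MvPolynomial (Fin 2) k →ₐ[k] LL) :
        MvPolynomial (Fin 2) k →+* LL) (y 2) Q = 0 := by
      let Θ : Polynomial (MvPolynomial (Fin 2) k) →ₐ[k] LL :=
        { Polynomial.eval₂RingHom ((aeval v : MvPolynomial (Fin 2) k →ₐ[k] LL) :
            MvPolynomial (Fin 2) k →+* LL) (y 2) with
          commutes' := fun r => by
            have h3 : algebraMap k (Polynomial (MvPolynomial (Fin 2) k)) r =
              Polynomial.C (C r) := rfl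
            show Polynomial.eval₂ _ _ (algebraMap k (Polynomial (MvPolynomial (Fin 2) k)) r) = _
            rw [h3, Polynomial.eval₂_C]
            simp }
      have h4 : Polynomial.eval₂ ((aeval v : MvPolynomial (Fin 2) k →ₐ[k] LL) :
        MvPolynomial (Fin 2) k →+* LL) (y 2) Q = Θ Q := rfl
      rw [h4, hQ, map_ae, ← hy]
      have h5 : (fun i => Θ (Polynomial.C (x i) +
          Polynomial.C (algebraMap k (MvPolynomial (Fin 2) k) (α i)) * Polynomial.X)) = y := by
        funext i
        show Polynomial.eval₂ _ _ _ = _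
        rw [Polynomial.eval₂_add, Polynomial.eval₂_mul, Polynomial.eval₂_C, Polynomial.eval₂_C,
          Polynomial.eval₂_X]
        fin_cases i
        · simp [x, v]
        · simp [x, v]
        · simp [x, hα]
      rw [h5]
    rw [h2, mul_zero]

/-- a polynomial in two coordinates is not divisible by `N` -/
theorem indep_aux [Infinite k] {e : ℕ} (he : 1 ≤ e) {N : MvPolynomial (Fin 3) k}
    (hN : N.IsHomogeneous e) {α : Fin 3 → k} (hα : α 2 = 1) (h0 : eval α N ≠ 0)
    {q : MvPolynomial (Fin 2) k} (hq : q ≠ 0) (p : MvPolynomial (Fin 3) k) (δ : ℕ)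
    (h : (aeval ![X 0 - C (α 0) * X 2, X 1 - C (α 1) * X 2] q : MvPolynomial (Fin 3) k) ^ δ =
      p * N) : False := by
  obtain ⟨x, hx⟩ : ∃ x, eval x q ≠ 0 := by
    by_contra hcon
    push Not at hcon
    exact hq (MvPolynomial.funext fun x => by rw [hcon x, map_zero])
  let y : Fin 3 → k := ![x 0, x 1, 0]
  have h1 := wd_subst (R := k) hN y α
  let Φ : MvPolynomial (Fin 3) k →ₐ[k] Polynomial k := aeval (fun i => Polynomial.C (y i) +
    Polynomial.C (algebraMap k k (α i)) * Polynomial.X)
  have h2 : Φ (aeval ![X 0 - C (α 0) * X 2, X 1 - C (α 1) * X 2] q) =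
      Polynomial.C (eval x q) := by
    rw [map_ae]
    have h3 : (fun i => Φ ((![X 0 - C (α 0) * X 2, X 1 - C (α 1) * X 2] :
        Fin 2 → MvPolynomial (Fin 3) k) i)) = fun i => Polynomial.C (x i) := by
      funext i
      fin_cases i
      · simp [Φ, y, hα, Polynomial.algebraMap_eq]
      · simp [Φ, y, hα, Polynomial.algebraMap_eq]
    rw [h3]
    have h4 := map_ae (Algebra.ofId k (Polynomial k)) x q
    have h5 : (fun i => Algebra.ofId k (Polynomial k) (x i)) = fun i => Polynomial.C (x i) := rfl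
    rw [h5] at h4
    rw [← h4]
    have h6 : (aeval x q : k) = eval x q := rfl
    rw [h6]
    rfl
  have h7 := congrArg Φ h
  rw [map_pow, map_mul, h2] at h7
  have h8 : IsUnit (Φ N) := by
    refine isUnit_of_dvd_unit (Dvd.intro_left _ h7.symm) ?_
    exact ((Polynomial.isUnit_C.mpr (isUnit_iff_ne_zero.mpr hx))).pow δ
  have h9 := Polynomial.natDegree_eq_zero_of_isUnit h8
  have h10 : (Φ N).coeff e = eval α N := h1.2
  have h11 : e ≤ (Φ N).natDegree := Polynomial.le_natDegree_of_ne_zero (by rw [h10]; exact h0)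
  omega

end

theorem pf_DC3 (h1 : T_SF1) (h2 : T_NGD) (h3 : T_NDV) : T_DC3 := by
  intro k F _ _ _ _ _ u dd δ j0 c0 J hS m G hm hG LL _ _ π hπ
  obtain ⟨hd, hUi, hUp, -⟩ := h1 k F u dd δ j0 c0 J hS
  obtain ⟨N, hN, hnorm, hN0⟩ := (h2 k F 3 δ u (eu u dd) hd).2 m G hG.itg hG.hom
  have hNG := h3 k F 3 δ u (eu u dd) hd G hG.ne hG.itg
  rw [hnorm] at hNG
  obtain ⟨α, hα, h0⟩ := exists_dir hN (hN0 hG.ne)
  have he : 1 ≤ δ * m := Nat.mul_pos hS.pos hm
  have : FiniteDimensional (kF k u) F := Module.finite_of_finrank_pos (by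
    have := hS.rank
    have := hS.pos
    omega)
  let U : Fin 3 → Bb k u := fun i => ⟨u i, hUi i⟩
  have hU : ∀ p : MvPolynomial (Fin 3) k, ((aeval U p : Bb k u) : F) = aeval u p := fun p =>
    coe_aeval U p
  have hy : aeval (fun i => π (U i)) N = 0 := by
    rw [← map_ae, hπ.ker, hU]
    exact hNG
  let w : Fin 2 → Bb k u := ![U 0 - algebraMap k _ (α 0) * U 2, U 1 - algebraMap k _ (α 1) * U 2]
  have hw : (fun i => π (w i)) = ![π (U 0) - algebraMap k LL (α 0) * π (U 2),
      π (U 1) - algebraMap k LL (α 1) * π (U 2)] := by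
    funext i
    fin_cases i <;> simp [w]
  have hz : Itg k (fun i => π (w i)) (π (U 2)) := by
    rw [hw]
    exact itg_third hN hα h0 (fun i => π (U i)) hy
  have hw' : ∀ i, Itg k (fun i => π (w i)) (π (w i)) := fun i => by
    have := itg_aev (k := k) (fun i => π (w i)) (X i)
    rwa [aeval_X] at this
  have hUw : ∀ i, π (U i) ∈ Bb k (fun i => π (w i)) := by
    have hc : ∀ c : k, algebraMap k LL c ∈ Bb k (fun i => π (w i)) := fun c =>
      (Bb k _).algebraMap_mem c
    have hz' : π (U 2) ∈ Bb k (fun i => π (w i)) := hz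
    have h5 : ∀ i : Fin 2, π (w i) ∈ Bb k (fun i => π (w i)) := hw'
    have e0 : π (w 0) = π (U 0) - algebraMap k LL (α 0) * π (U 2) := congrFun hw 0
    have e1 : π (w 1) = π (U 1) - algebraMap k LL (α 1) * π (U 2) := congrFun hw 1
    intro i
    fin_cases i
    · have := (Bb k _).add_mem (h5 0) ((Bb k _).mul_mem (hc (α 0)) hz')
      rw [e0, sub_add_cancel] at this
      exact this
    · have := (Bb k _).add_mem (h5 1) ((Bb k _).mul_mem (hc (α 1)) hz')
      rw [e1, sub_add_cancel] at this
      exact this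
    · exact hz'
  refine ⟨fun i => π (w i), ?_, ?_, ?_⟩
  · rw [algebraicIndependent_iff]
    intro q hq
    by_contra hq0
    have h5 : Itg k u ((aeval w q : Bb k u) / G) := by
      rw [← hπ.ker, map_ae]
      exact hq
    obtain ⟨p, hp⟩ := norm_itg hS.ind h5
    set q' : MvPolynomial (Fin 3) k := aeval ![X 0 - C (α 0) * X 2, X 1 - C (α 1) * X 2] q with hq'
    have h6 : ((aeval w q : Bb k u) : F) = aeval u q' := by
      rw [coe_aeval, hq', map_ae]
      have h7 : (fun i => (w i : F)) = fun i => aeval u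
          ((![X 0 - C (α 0) * X 2, X 1 - C (α 1) * X 2] : Fin 2 → MvPolynomial (Fin 3) k) i) := by
        funext i
        fin_cases i
        · simp [w, U]
        · simp [w, U]
      rw [h7]
    have h8 : Algebra.norm (kF k u) ((aeval w q : Bb k u) : F) =
        Algebra.norm (kF k u) (((aeval w q : Bb k u) : F) / G) * Algebra.norm (kF k u) G := by
      rw [← map_mul, div_mul_cancel₀ _ hG.ne]
    have h9 : (aeval u q' : F) ∈ kF k u :=
      IntermediateField.algebra_adjoin_le_adjoin k _ (Pool.Agent.H62.HIL.aeval_mem u q')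
    have h10 : Algebra.norm (kF k u) (aeval u q' : F) = (⟨aeval u q', h9⟩ : kF k u) ^ δ := by
      rw [← hS.rank]
      exact Algebra.norm_algebraMap (S := F) (⟨aeval u q', h9⟩ : kF k u)
    have h11 : (aeval u q' : F) ^ δ = aeval u p * aeval u N := by
      have h12 := congrArg (fun z : kF k u => (z : F)) h8
      rw [h6, h10] at h12
      have h13 : (((⟨aeval u q', h9⟩ : kF k u) ^ δ : kF k u) : F) =
        ((Algebra.norm (kF k u) ((aeval u q' : F) / G) : kF k u) : F) *
        ((Algebra.norm (kF k u) G : kF k u) : F) := h12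
      rw [h6] at hp
      rw [hp, hnorm] at h13
      exact h13
    refine indep_aux he hN hα h0 hq0 p δ ?_
    apply hS.ind
    rw [map_pow, map_mul]
    exact h11
  · intro i
    fin_cases i
    · refine ⟨![1, 0, -α 0], w 0, ?_, rfl⟩
      simp [w, U, Fin.sum_univ_three, Algebra.smul_def]
      ring
    · refine ⟨![0, 1, -α 1], w 1, ?_, rfl⟩
      simp [w, U, Fin.sum_univ_three, Algebra.smul_def]
      ring
  · intro b
    obtain ⟨P, hP, hPe⟩ := b.2
    have h5 : P.eval₂ ((aeval U : MvPolynomial (Fin 3) k →ₐ[k] Bb k u) :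
        MvPolynomial (Fin 3) k →+* Bb k u) b = 0 := by
      apply Subtype.ext
      have h := Polynomial.hom_eval₂ P ((aeval U : MvPolynomial (Fin 3) k →ₐ[k] Bb k u) :
        MvPolynomial (Fin 3) k →+* Bb k u) ((Bb k u).val : Bb k u →+* F) b
      have h4 : (((Bb k u).val : Bb k u →+* F)).comp ((aeval U : MvPolynomial (Fin 3) k →ₐ[k]
          Bb k u) : MvPolynomial (Fin 3) k →+* Bb k u) =
          ((aeval u : MvPolynomial (Fin 3) k →ₐ[k] F) : MvPolynomial (Fin 3) k →+* F) :=
        RingHom.ext fun p => hU p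
      rw [h4] at h
      exact h.trans hPe
    have h6 := congrArg π h5
    rw [Polynomial.eval₂_eq_sum_range, Finset.sum_range_succ, hP.coeff_natDegree, map_zero,
      map_one, one_mul, map_add, map_sum, map_pow, add_comm] at h6
    rw [Pool.Agent.H62.HIL.itg_iff]
    refine Pool.Agent.H62.HIL.itg_of_relation P.natDegree
      (fun i => π (aeval U (P.coeff i))) (fun i hi => ?_) ?_
    · show Pool.Agent.H62.HIL.Itg k (fun i => π (w i)) (π (aeval U (P.coeff i)))
      rw [← Pool.Agent.H62.HIL.itg_iff, map_ae]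
      have h7 : aeval (fun i => π (U i)) (P.coeff i) ∈ Algebra.adjoin k
        (Set.range fun i => π (U i)) := Pool.Agent.H62.HIL.aeval_mem _ _
      have h8 : Algebra.adjoin k (Set.range fun i => π (U i)) ≤ Bb k (fun i => π (w i)) := by
        rw [Algebra.adjoin_le_iff]
        rintro x ⟨i, rfl⟩
        exact hUw i
      exact h8 h7
    · rw [← h6]
      congr 1
      refine Finset.sum_congr rfl fun i _ => ?_
      rw [map_mul, map_pow]
      rfl

end Pool.Agent.H91.SFH
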