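import Pool.Agent.H62.HIL.Tg
import Pool.Agent.H91.SFD.Int

set_option autoImplicit false

namespace Pool.Agent.H91.SFH

open MvPolynomial SC Pool.Agent.H27.LV Pool.Agent.H92.SF Pool.Agent.H3.SF
open Pool.Agent.H91.SFD

section

variable {k F LL : Type} [Field k] [Field F] [Algebra k F] [Field LL] [Algebra k LL]

/-- the images of homogeneous elements -/
def HS (u : Fin 3 → F) (E : Derivation k F F) (π : Bb k u →ₐ[k] LL) : Set LL :=
  {z | ∃ (t : ℕ) (b : Bb k u), (b : F) ∈ BB k u E t ∧ z = π b}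

theorem span_range {u : Fin 3 → F} {v : Fin 2 → LL} [FiniteDimensional (kF k v) LL]
    (π : Bb k u →ₐ[k] LL) (sur : ∀ z : LL, ∃ b c : Bb k u, π c ≠ 0 ∧ z * π c = π b) :
    Submodule.span (kF k v) (Set.range π) = ⊤ := by
  have h1 : (Subalgebra.toSubmodule (Algebra.adjoin (kF k v) (Set.range π))) =
      Submodule.span (kF k v) (Set.range π) := by
    have h2 : (Submonoid.closure (Set.range π) : Set LL) = Set.range π := by
      have h3 : Set.range π = ((MonoidHom.mrange (π : Bb k u →* LL) : Submonoid LL) : Set LL) := rfl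
      rw [h3, Submonoid.closure_eq]
    rw [Algebra.adjoin_eq_span, h2]
  rw [← h1, eq_top_iff]
  intro z _
  obtain ⟨b, c, hc, hz⟩ := sur z
  have hz' : z = π b * (π c)⁻¹ := by
    rw [← hz, mul_assoc, mul_inv_cancel₀ hc, mul_one]
  rw [hz']
  have h4 : ∀ b, π b ∈ Algebra.adjoin (kF k v) (Set.range π) := fun b =>
    Algebra.subset_adjoin ⟨b, rfl⟩
  have h5 : ((⟨π c, h4 c⟩ : Algebra.adjoin (kF k v) (Set.range π)) : LL)⁻¹ ∈
      Algebra.adjoin (kF k v) (Set.range π) :=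
    Subalgebra.inv_mem_of_algebraic _ (Algebra.IsAlgebraic.isAlgebraic _)
  exact (Algebra.adjoin (kF k v) (Set.range π)).mul_mem (h4 b) h5

theorem span_hs {u : Fin 3 → F} {E : Derivation k F F}
    {v : Fin 2 → LL} [FiniteDimensional (kF k v) LL]
    (grd : ∀ a, Itg k u a → a ∈ ⨆ t : ℤ, BB k u E t)
    (neg : ∀ t : ℤ, t < 0 → BB k u E t = ⊥)
    (π : Bb k u →ₐ[k] LL) (sur : ∀ z : LL, ∃ b c : Bb k u, π c ≠ 0 ∧ z * π c = π b) :
    Submodule.span (kF k v) (HS u E π) = ⊤ := by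
  rw [eq_top_iff, ← span_range (v := v) π sur, Submodule.span_le]
  rintro _ ⟨⟨a, ha⟩, rfl⟩
  have h1 := grd a ha
  have h2 : ∃ ha : Itg k u a, π ⟨a, ha⟩ ∈ Submodule.span (kF k v) (HS u E π) := by
    clear ha
    induction h1 using Submodule.iSup_induction' with
    | mem t x hx =>
      refine ⟨hx.1, ?_⟩
      by_cases ht : t < 0
      · have h3 := neg t ht
        rw [h3] at hx
        have h4 : x = 0 := (Submodule.mem_bot k).mp hx
        subst h4
        have h5 : (⟨0, (Bb k u).zero_mem⟩ : Bb k u) = 0 := rfl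
        have h6 : π ⟨0, (Bb k u).zero_mem⟩ = 0 := by rw [h5, map_zero]
        exact h6 ▸ Submodule.zero_mem _
      · refine Submodule.subset_span ⟨t.toNat, ⟨x, hx.1⟩, ?_, rfl⟩
        rw [Int.toNat_of_nonneg (not_lt.mp ht)]
        exact hx
    | zero =>
      refine ⟨(Bb k u).zero_mem, ?_⟩
      have h5 : (⟨0, (Bb k u).zero_mem⟩ : Bb k u) = 0 := rfl
      have h6 : π ⟨0, (Bb k u).zero_mem⟩ = 0 := by rw [h5, map_zero]
      exact h6 ▸ Submodule.zero_mem _
    | add x y hx hy hx1 hy1 =>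
      obtain ⟨hx2, hx3⟩ := hx1
      obtain ⟨hy2, hy3⟩ := hy1
      refine ⟨(Bb k u).add_mem hx2 hy2, ?_⟩
      have h5 : (⟨x + y, (Bb k u).add_mem hx2 hy2⟩ : Bb k u) = ⟨x, hx2⟩ + ⟨y, hy2⟩ := rfl
      have h6 := Submodule.add_mem _ hx3 hy3
      rw [← map_add, ← h5] at h6
      exact h6
  exact h2.2

/-- a basis of homogeneous elements of the same degree -/
theorem exists_basis {u : Fin 3 → F} {E : Derivation k F F} {v : Fin 2 → LL}
    {EL : Derivation k LL LL} {d : ℕ} (hd : Hd k v EL d)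
    (grd : ∀ a, Itg k u a → a ∈ ⨆ t : ℤ, BB k u E t)
    (neg : ∀ t : ℤ, t < 0 → BB k u E t = ⊥)
    (π : Bb k u →ₐ[k] LL) (sur : ∀ z : LL, ∃ b c : Bb k u, π c ≠ 0 ∧ z * π c = π b)
    (w : Bb k u) (hw : (w : F) ∈ BB k u E 1) (hv : v 1 = π w) :
    ∃ (T0 : ℕ) (b : Fin d → Bb k u), (∀ i, (b i : F) ∈ BB k u E T0) ∧
      LinearIndependent (kF k v) fun i => π (b i) := by
  have : FiniteDimensional (kF k v) LL := Module.finite_of_finrank_pos (by
    have := hd.deg
    have := hd.pos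
    omega)
  obtain ⟨B, hB, hspan, hli⟩ := exists_linearIndependent (kF k v) (HS u E π)
  rw [span_hs (v := v) grd neg π sur] at hspan
  have hfin : Finite B := hli.finite
  have : Fintype B := Fintype.ofFinite B
  have hcard : Fintype.card B = d := by
    have h1 := finrank_span_eq_card hli
    rw [Subtype.range_coe, hspan, finrank_top, hd.deg] at h1
    exact h1.symm
  have hex : ∀ z : B, ∃ (t : ℕ) (b : Bb k u), (b : F) ∈ BB k u E t ∧ (z : LL) = π b :=
    fun z => hB z.2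
  choose t b hb hz using hex
  let e : Fin d ≃ B := (Fintype.equivFinOfCardEq hcard).symm
  refine ⟨∑ z, t z, fun i => w ^ (∑ z, t z - t (e i)) * b (e i), fun i => ?_, ?_⟩
  · have h2 : t (e i) ≤ ∑ z, t z :=
      Finset.single_le_sum (f := t) (fun _ _ => Nat.zero_le _) (Finset.mem_univ (e i))
    refine ⟨(w ^ (∑ z, t z - t (e i)) * b (e i)).2, ?_⟩
    have h3 := Pool.Agent.H62.HIL.hm_mul
      (Pool.Agent.H62.HIL.hm_pow hw.2 (∑ z, t z - t (e i))) (hb (e i)).2
    have h4 : (((∑ z, t z - t (e i) : ℕ) : ℤ) * 1 + (t (e i) : ℤ)) = ((∑ z, t z : ℕ) : ℤ) := by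
      rw [mul_one, ← Nat.cast_add, Nat.sub_add_cancel h2]
    rw [h4] at h3
    exact h3
  · have hv0 : v 1 ≠ 0 := hd.ind.ne_zero 1
    have hmem : v 1 ∈ kF k v := IntermediateField.subset_adjoin k _ ⟨1, rfl⟩
    have hu : (⟨v 1, hmem⟩ : kF k v) ≠ 0 := fun h => hv0 (congrArg Subtype.val h)
    have h5 := (hli.comp e e.injective).units_smul
      (fun i => (Units.mk0 (⟨v 1, hmem⟩ : kF k v) hu) ^ (∑ z, t z - t (e i)))
    have h6 : (fun i => π (w ^ (∑ z, t z - t (e i)) * b (e i))) =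
        (fun i => (Units.mk0 (⟨v 1, hmem⟩ : kF k v) hu) ^ (∑ z, t z - t (e i))) •
          ((fun z : B => (z : LL)) ∘ e) := by
      funext i
      rw [map_mul, map_pow, ← hv, ← hz]
      show _ = ((((Units.mk0 (⟨v 1, hmem⟩ : kF k v) hu) ^ (∑ z, t z - t (e i)) :
        (kF k v)ˣ) : kF k v) : LL) * ((e i : B) : LL)
      rw [Units.val_pow_eq_pow_val, Units.val_mk0]
      rfl
    rw [h6]
    exact h5

/-- monomials of degree `s` in algebraically independent elements -/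
theorem mono_indep {v : Fin 2 → LL} (hv : AlgebraicIndependent k v) (s : ℕ)
    (hm : ∀ i, v i ∈ kF k v) : LinearIndependent k (fun j : Fin (s + 1) =>
      (⟨v 0, hm 0⟩ : kF k v) ^ (j : ℕ) * (⟨v 1, hm 1⟩ : kF k v) ^ (s - j)) := by
  have h1 := (MvPolynomial.basisMonomials (Fin 2) k).linearIndependent
  let f : Fin (s + 1) → (Fin 2 →₀ ℕ) := fun j =>
    Finsupp.single 0 (j : ℕ) + Finsupp.single 1 (s - j)
  have hf : Function.Injective f := by
    intro i j hij
    have h2 := DFunLike.congr_fun hij 0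
    simp only [f, Finsupp.add_apply, Finsupp.single_eq_same] at h2
    apply Fin.ext
    simpa using h2
  have h3 := (h1.comp f hf).map' (aeval v : MvPolynomial (Fin 2) k →ₐ[k] LL).toLinearMap
    (LinearMap.ker_eq_bot.mpr hv)
  refine LinearIndependent.of_comp (kF k v).val.toLinearMap ?_
  have h4 : ((kF k v).val.toLinearMap ∘ fun j : Fin (s + 1) =>
      (⟨v 0, hm 0⟩ : kF k v) ^ (j : ℕ) * (⟨v 1, hm 1⟩ : kF k v) ^ (s - j)) =
      (aeval v : MvPolynomial (Fin 2) k →ₐ[k] LL).toLinearMap ∘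
        (MvPolynomial.basisMonomials (Fin 2) k) ∘ f := by
    funext j
    have h5 : (MvPolynomial.basisMonomials (Fin 2) k) (f j) =
        X (0 : Fin 2) ^ (j : ℕ) * X 1 ^ (s - (j : ℕ)) := by
      rw [MvPolynomial.coe_basisMonomials, X_pow_eq_monomial, X_pow_eq_monomial, monomial_mul,
        one_mul]
    show ((kF k v).val ((⟨v 0, hm 0⟩ : kF k v) ^ (j : ℕ) * (⟨v 1, hm 1⟩ : kF k v) ^ (s - j))) =
      aeval v ((MvPolynomial.basisMonomials (Fin 2) k) (f j))
    rw [h5, map_mul, map_mul, map_pow, map_pow, map_pow, map_pow,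
      aeval_X, aeval_X]
    rfl
  rw [h4]
  exact h3

/-- the step of the Hilbert function -/
theorem step {u : Fin 3 → F} {E : Derivation k F F} {v : Fin 2 → LL}
    (hv : AlgebraicIndependent k v) (hfin : ∀ t : ℤ, Module.Finite k (BB k u E t))
    (π : Bb k u →ₐ[k] LL) {m : ℕ} {G : F} (hG0 : G ≠ 0) (hGi : Itg k u G) (hGh : Hm k E m G)
    (ker : ∀ b : Bb k u, π b = 0 ↔ Itg k u ((b : F) / G))
    (w : Fin 2 → Bb k u) (hw : ∀ i, (w i : F) ∈ BB k u E 1) (hvw : ∀ i, v i = π (w i))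
    {d T0 : ℕ} (b : Fin d → Bb k u) (hb : ∀ i, (b i : F) ∈ BB k u E T0)
    (hli : LinearIndependent (kF k v) fun i => π (b i)) (s : ℕ) (hs : m ≤ T0 + s) :
    (s + 1) * d + Module.finrank k (BB k u E ((T0 + s - m : ℕ) : ℤ)) ≤
      Module.finrank k (BB k u E ((T0 + s : ℕ) : ℤ)) := by
  have i1 := hfin ((T0 + s : ℕ) : ℤ)
  have i2 := hfin ((T0 + s - m : ℕ) : ℤ)
  let f : BB k u E ((T0 + s : ℕ) : ℤ) →ₗ[k] LL :=
    { toFun := fun x => π ⟨x.1, x.2.1⟩
      map_add' := fun x y => by rw [← map_add]; rfl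
      map_smul' := fun c x => by rw [RingHom.id_apply, ← map_smul]; rfl }
  let g : BB k u E ((T0 + s - m : ℕ) : ℤ) →ₗ[k] LinearMap.ker f :=
    { toFun := fun y => ⟨⟨G * y.1, (Bb k u).mul_mem hGi y.2.1, by
        have h1 := Pool.Agent.H62.HIL.hm_mul hGh y.2.2
        have h2 : (m : ℤ) + ((T0 + s - m : ℕ) : ℤ) = ((T0 + s : ℕ) : ℤ) := by
          rw [← Nat.cast_add, Nat.add_sub_cancel' hs]
        rw [h2] at h1
        exact h1⟩, by
          rw [LinearMap.mem_ker]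
          show π ⟨G * y.1, _⟩ = 0
          rw [ker]
          show Itg k u (G * y.1 / G)
          rw [mul_div_cancel_left₀ _ hG0]
          exact y.2.1⟩
      map_add' := fun x y => by
        apply Subtype.ext; apply Subtype.ext
        exact mul_add G x.1 y.1
      map_smul' := fun c x => by
        apply Subtype.ext; apply Subtype.ext
        exact mul_smul_comm c G x.1 }
  have hg : Function.Injective g := by
    intro x y hxy
    have h1 : G * x.1 = G * y.1 := congrArg (fun z : LinearMap.ker f => (z.1.1 : F)) hxy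
    exact Subtype.ext (mul_left_cancel₀ hG0 h1)
  have h3 := LinearMap.finrank_le_finrank_of_injective hg
  have h4 := LinearMap.finrank_range_add_finrank_ker f
  have hm : ∀ i, v i ∈ kF k v := fun i => IntermediateField.subset_adjoin k _ ⟨i, rfl⟩
  have h5 := linearIndependent_smul (mono_indep hv s hm) hli
  have h6 : ∀ p : Fin (s + 1) × Fin d, ((⟨v 0, hm 0⟩ : kF k v) ^ (p.1 : ℕ) *
      (⟨v 1, hm 1⟩ : kF k v) ^ (s - p.1)) • π (b p.2) ∈ LinearMap.range f := by
    rintro ⟨j, i⟩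
    have hx : ((w 0 ^ (j : ℕ) * w 1 ^ (s - j) * b i : Bb k u) : F) ∈
        BB k u E ((T0 + s : ℕ) : ℤ) := by
      refine ⟨(w 0 ^ (j : ℕ) * w 1 ^ (s - j) * b i).2, ?_⟩
      have h7 := Pool.Agent.H62.HIL.hm_mul (Pool.Agent.H62.HIL.hm_mul
        (Pool.Agent.H62.HIL.hm_pow (hw 0).2 (j : ℕ)) (Pool.Agent.H62.HIL.hm_pow (hw 1).2 (s - j)))
        (hb i).2
      have h8 : (((j : ℕ) : ℤ) * 1 + ((s - j : ℕ) : ℤ) * 1 + (T0 : ℤ)) = ((T0 + s : ℕ) : ℤ) := by
        have := j.2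
        omega
      rw [h8] at h7
      exact h7
    refine ⟨⟨_, hx⟩, ?_⟩
    show π (w 0 ^ (j : ℕ) * w 1 ^ (s - j) * b i) = _
    rw [map_mul, map_mul, map_pow, map_pow, ← hvw, ← hvw]
    rfl
  have h9 : LinearIndependent k (fun p : Fin (s + 1) × Fin d =>
      (⟨_, h6 p⟩ : LinearMap.range f)) := LinearIndependent.of_comp (LinearMap.range f).subtype h5
  have h10 := h9.fintype_card_le_finrank
  rw [Fintype.card_prod, Fintype.card_fin, Fintype.card_fin] at h10
  omega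

end

theorem pf_DCD (h1 : T_SF1) : T_DCD := by
  intro δ j0 c0
  refine ⟨2 * c0 * δ, ?_⟩
  intro k F _ _ _ _ _ u dd J hS m G hm hG LL _ _ π v EL d hD
  have hdu : Hd k u (eu u dd) δ := (h1 k F u dd δ j0 c0 J hS).1
  have hlin : ∀ i, ∃ b : Bb k u, (b : F) ∈ BB k u (eu u dd) 1 ∧ v i = π b := by
    intro i
    obtain ⟨a, b, hb, hv⟩ := hD.lin i
    refine ⟨b, ⟨b.2, ?_⟩, hv⟩
    show eu u dd (b : F) = ((1 : ℤ) : F) * b
    rw [Int.cast_one, one_mul, hb, map_sum]
    refine Finset.sum_congr rfl fun j _ => ?_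
    rw [Derivation.map_smul, hdu.eul]
  choose w hw hvw using hlin
  obtain ⟨T0, b, hb, hli⟩ := exists_basis (u := u) hD.hd hS.grd hS.neg π hD.sur (w 1) (hw 1) (hvw 1)
  by_contra hcon
  push Not at hcon
  set s := T0 + m + c0 + d * T0 + 1 with hs
  have h2 := step hD.hd.ind hS.fin π hG.ne hG.itg hG.hom hD.ker w hw hvw b hb hli s (by omega)
  have h3 := hS.up (T0 + s)
  have h4 := hS.lo (T0 + s - m) (by omega)
  have h5 : 2 * ((s + 1) * d) + δ * (T0 + s - m - c0) ^ 2 ≤ δ * (T0 + s + c0) ^ 2 := by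
    omega
  obtain ⟨r, hr⟩ : ∃ r, T0 + s = r + m + c0 := ⟨T0 + s - m - c0, by omega⟩
  rw [hr, show r + m + c0 - m - c0 = r by omega] at h5
  have h6 : d ≥ m * δ + 2 * c0 * δ + 1 := hcon
  nlinarith [h5, h6]

end Pool.Agent.H91.SFH
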