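import Pool.Agent.H62.HIL.Tg
import Pool.Agent.H62.HIL.Norm
import Pool.Agent.H91.SFD.Int

set_option autoImplicit false

namespace Pool.Agent.H91.SFH

open MvPolynomial SC Pool.Agent.H27.LV Pool.Agent.H92.SF Pool.Agent.H3.SF
open scoped IntermediateField.algebraAdjoinAdjoin

theorem pf_HDN (h1 : T_MPH) (h2 : T_HMP) : T_HDN := by
  classical
  intro k F _ _ _ _ n d v E hd t a ha
  have : FiniteDimensional (kF k v) F := Module.finite_of_finrank_pos (by
    have := hd.deg
    have := hd.pos
    omega)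
  have hint : IsIntegral (kF k v) a := Algebra.IsIntegral.isIntegral a
  set P := minpoly (kF k v) a with hP
  set N := P.natDegree with hN
  have h3 : ∀ i : ℕ, i < N + 1 → ∃ (h : ℕ) (p q : MvPolynomial (Fin n) k), q ≠ 0 ∧
      q.IsHomogeneous h ∧ ((P.coeff (N - i) : kF k v) : F) * aeval v q = aeval v p := by
    intro i hi
    have h4 := h1 k F n d v E hd t a ha i (Nat.le_of_lt_succ hi)
    obtain ⟨_, h, p, q, hq, _, _, hq', hpq, _⟩ :=
      (h2 k F n v E hd.ind hd.eul).2 (i * t) _ (P.coeff (N - i)).2 h4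
    exact ⟨h, p, q, hq, hq', hpq⟩
  choose! h p q hq hq' hpq using h3
  have hH0 : ∏ i ∈ Finset.range (N + 1), q i ≠ 0 :=
    Finset.prod_ne_zero_iff.mpr fun i hi => hq i (Finset.mem_range.mp hi)
  refine ⟨∑ i ∈ Finset.range (N + 1), h i, ∏ i ∈ Finset.range (N + 1), q i, hH0,
    IsHomogeneous.prod _ _ _ fun i hi => hq' i (Finset.mem_range.mp hi), ?_⟩
  set H := ∏ i ∈ Finset.range (N + 1), q i with hH
  have h5 : ∀ i < N, ∃ r : MvPolynomial (Fin n) k,
      ((P.coeff i : kF k v) : F) * (aeval v H) ^ (N - i) = aeval v r := by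
    intro i hi
    have hm : N - i ∈ Finset.range (N + 1) := Finset.mem_range.mpr (by omega)
    have h6 := hpq (N - i) (by omega)
    rw [show N - (N - i) = i by omega] at h6
    have h7 : H = q (N - i) * ∏ j ∈ (Finset.range (N + 1)).erase (N - i), q j :=
      (Finset.mul_prod_erase _ _ hm).symm
    refine ⟨p (N - i) * (∏ j ∈ (Finset.range (N + 1)).erase (N - i), q j) * H ^ (N - i - 1), ?_⟩
    have h8 : (aeval v H : F) ^ (N - i) = aeval v H * aeval v H ^ (N - i - 1) := by
      rw [← pow_succ']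
      congr 1
      omega
    rw [h8, map_mul, map_mul, map_pow, ← h6]
    nth_rewrite 1 [h7]
    rw [map_mul]
    ring
  have h9 : a ^ N + ∑ i ∈ Finset.range N, ((P.coeff i : kF k v) : F) * a ^ i = 0 := by
    have h10 := minpoly.aeval (kF k v) a
    rw [← hP, Polynomial.aeval_eq_sum_range, Finset.sum_range_succ, ← hN,
      show P.coeff N = 1 from (minpoly.monic hint).coeff_natDegree, one_smul] at h10
    rw [← h10, add_comm]
    rfl
  rw [Pool.Agent.H62.HIL.itg_iff]
  refine Pool.Agent.H62.HIL.itg_of_relation N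
    (fun i => ((P.coeff i : kF k v) : F) * (aeval v H) ^ (N - i)) (fun i hi => ?_) ?_
  · obtain ⟨r, hr⟩ := h5 i hi
    show Pool.Agent.H62.HIL.Itg k v (((P.coeff i : kF k v) : F) * (aeval v H) ^ (N - i))
    rw [hr, ← Pool.Agent.H62.HIL.itg_iff]
    exact SFD.itg_aev v r
  · have h11 : (aeval v H * a) ^ N + ∑ i ∈ Finset.range N,
        ((P.coeff i : kF k v) : F) * (aeval v H) ^ (N - i) * (aeval v H * a) ^ i =
        aeval v H ^ N * (a ^ N + ∑ i ∈ Finset.range N, ((P.coeff i : kF k v) : F) * a ^ i) := by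
      rw [mul_add, Finset.mul_sum, mul_pow]
      congr 1
      refine Finset.sum_congr rfl fun i hi => ?_
      have h12 : (aeval v H : F) ^ N = aeval v H ^ (N - i) * aeval v H ^ i := by
        rw [← pow_add]
        congr 1
        have := Finset.mem_range.mp hi
        omega
      rw [h12, mul_pow]
      ring
    rw [h11, h9, mul_zero]

end Pool.Agent.H91.SFH
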