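import Pool.Agent.H62.HIL.Tg
import Pool.Agent.H91.SFD.Int

set_option autoImplicit false

namespace Pool.Agent.H91.SFH

open MvPolynomial SC Pool.Agent.H27.LV Pool.Agent.H92.SF Pool.Agent.H3.SF
open scoped IntermediateField.algebraAdjoinAdjoin

section

variable {k F : Type} [Field k] [Field F] [Algebra k F] {u : Fin 3 → F}
  {dd : Fin 3 → Derivation k F F}

theorem eu_apply (u : Fin 3 → F) (dd : Fin 3 → Derivation k F F) (a : F) :
    eu u dd a = u 0 * dd 0 a + u 1 * dd 1 a + u 2 * dd 2 a := by
  unfold eu
  rw [Fin.sum_univ_three]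
  simp only [Derivation.add_apply, Derivation.smul_apply, smul_eq_mul]

theorem eu_u (hdu : ∀ l j, dd l (u j) = if l = j then 1 else 0) (i : Fin 3) :
    eu u dd (u i) = u i := by
  rw [eu_apply]
  simp only [hdu]
  fin_cases i <;> simp

theorem dd_aeval (hdu : ∀ l j, dd l (u j) = if l = j then 1 else 0) (l : Fin 3)
    (p : MvPolynomial (Fin 3) k) : dd l (aeval u p) = aeval u (pderiv l p) := by
  induction p using MvPolynomial.induction_on with
  | C a =>
    rw [pderiv_C, map_zero, ← MvPolynomial.algebraMap_eq, AlgHom.commutes,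
      Derivation.map_algebraMap]
  | add p q hp hq => rw [map_add, map_add, map_add, map_add, hp, hq]
  | mul_X p i hp =>
    rw [map_mul, Derivation.leibniz, Derivation.leibniz, hp, aeval_X, hdu, pderiv_X, map_add,
      smul_eq_mul, smul_eq_mul, smul_eq_mul, smul_eq_mul, map_mul, map_mul, aeval_X]
    by_cases h : l = i
    · subst h
      simp
    · simp [h]

theorem eu_dd (hdu : ∀ l j, dd l (u j) = if l = j then 1 else 0)
    (hc : ∀ l l' a, dd l (dd l' a) = dd l' (dd l a)) (l : Fin 3) (a : F) :
    dd l (eu u dd a) = dd l a + eu u dd (dd l a) := by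
  rw [eu_apply, eu_apply, map_add, map_add, Derivation.leibniz, Derivation.leibniz,
    Derivation.leibniz, hc l 0, hc l 1, hc l 2]
  simp only [smul_eq_mul, hdu]
  fin_cases l <;> simp <;> ring

end

theorem pf_SF1 : T_SF1 := by
  intro k F _ _ _ _ _ u dd δ j0 c0 J hS
  have hu : ∀ p : MvPolynomial (Fin 3) k, Itg k u (aeval u p) := SFD.itg_aev u
  have : FiniteDimensional (kF k u) F := Module.finite_of_finrank_pos (by
    have := hS.rank
    have := hS.pos
    omega)
  refine ⟨⟨hS.ind, hS.rank, hS.pos, eu_u hS.du⟩, fun i => ?_, hu, dd_aeval hS.du, fun a ha => ?_,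
    fun t a l ha => ?_, fun a => ?_⟩
  · have := hu (X i)
    rwa [aeval_X] at this
  · have h1 := hS.grd a ha
    clear ha
    induction h1 using Submodule.iSup_induction' with
    | mem t x hx =>
      have h2 : eu u dd x = (t : F) * x := hx.2
      rw [h2]
      have h3 : Itg k u ((t : k) • x) := (Bb k u).smul_mem hx.1 _
      rw [Algebra.smul_def, map_intCast] at h3
      exact h3
    | zero => rw [map_zero]; exact (Bb k u).zero_mem
    | add x y hx hy hx1 hy1 =>
      rw [map_add]
      exact (Bb k u).add_mem hx1 hy1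
  · have h1 := eu_dd hS.du hS.comm l a
    have h2 : eu u dd a = (t : F) * a := ha
    rw [h2, Derivation.leibniz, Derivation.map_intCast, smul_zero, add_zero, smul_eq_mul] at h1
    show eu u dd (dd l a) = ((t - 1 : ℤ) : F) * dd l a
    push_cast
    linear_combination -h1
  · have h1 : IsAlgebraic (kF k u) a := Algebra.IsAlgebraic.isAlgebraic a
    have h2 : IsAlgebraic (Algebra.adjoin k (Set.range u)) a :=
      (IsFractionRing.isAlgebraic_iff _ (kF k u) F).mpr h1
    obtain ⟨y, hy, hya⟩ := h2.exists_integral_multiple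
    have hy' : (y : F) ≠ 0 := fun h => hy (Subtype.ext h)
    refine ⟨(y : F) * a, y, Pool.Agent.H62.HIL.itg_iff.mpr hya, SFD.adj_le u y.2, hy', ?_⟩
    field_simp

end Pool.Agent.H91.SFH
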